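import Pool.Agent.Lib.H25E.Rough

/-!
Counting form of `V_ge`, through the fundamental lemma of the sieve.
-/

namespace Pool.Agent.Lib.H25E

open Finset Pool.Agent.Lib.Sieve

/-- Product of the odd primes up to `2p + 2`. -/
def qm (p : ℕ) : ℕ := ∏ l ∈ (primesUpTo (2 * p + 2)).filter (fun l => l ≠ 2), l

lemma qm_pos (p : ℕ) : 0 < qm p := by
  unfold qm
  exact Finset.prod_pos fun l hl => (mem_primesUpTo.1 (Finset.mem_filter.1 hl).1).1.pos

lemma qm_ne {p l : ℕ} (hl : l.Prime) (hlp : 2 * p + 2 < l) : (qm p : ZMod l) ≠ 0 := by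
  rw [Ne, ZMod.natCast_eq_zero_iff]
  intro h
  unfold qm at h
  obtain ⟨m, hm, hd⟩ := (Prime.dvd_finsetProd_iff (Nat.Prime.prime hl) _).1 h
  obtain ⟨hm1, hm2⟩ := mem_primesUpTo.1 (Finset.mem_filter.1 hm).1
  have := (Nat.prime_dvd_prime_iff_eq hl hm1).1 hd
  omega

lemma dvd_qm {p l : ℕ} (hl : l.Prime) (hl2 : l ≠ 2) (hlp : l ≤ 2 * p + 2) : l ∣ qm p := by
  unfold qm
  exact Finset.dvd_prod_of_mem _ (Finset.mem_filter.2 ⟨mem_primesUpTo.2 ⟨hl, hlp⟩, hl2⟩)

/-- `u` avoids the classes of all the primes `2p+2 < l <= z`. -/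
def Avoid (p q z : ℕ) (u : ℤ) : Prop := ∀ l ∈ sprimes (2 * p + 2) z, (u : ZMod l) ∉ Om p q l

theorem rough_count (p : ℕ) (hp : p.Prime) (z : ℕ) (hz : 2 ≤ z) (A B : ℕ) (hAB : A ≤ B)
    (hM : z ^ (198 * p + 26) ≤ B / qm p - A / qm p) :
    ∃ T : Finset ℕ, (∀ y ∈ T, A < y ∧ y ≤ B) ∧
      (∀ y ∈ T, ∀ l : ℕ, l.Prime → l % 2 = 1 → l ≤ z → ¬ (y ^ p ≡ 2 ^ p [MOD l])) ∧
      ((B / qm p - A / qm p : ℕ) : ℝ) / (4000 * (Real.sqrt z * Real.log z)) ≤ (T.card : ℝ) := by
  classical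
  set q := qm p with hq
  have hq0 : 0 < q := qm_pos p
  set M := B / q - A / q with hMdef
  have hle : A / q ≤ B / q := Nat.div_le_div_right hAB
  set a : ℤ := ((A / q : ℕ) : ℤ) + 1 with ha
  set U : Finset ℤ := (Finset.Ico a (a + M)).filter (Avoid p q z) with hU
  have hUmem : ∀ u ∈ U, 1 ≤ u ∧ (A / q : ℕ) < u.toNat ∧ u.toNat ≤ B / q := by
    intro u hu
    have h1 := Finset.mem_Ico.1 (Finset.mem_filter.1 hu).1
    have h0 : (0 : ℤ) ≤ ((A / q : ℕ) : ℤ) := Int.natCast_nonneg _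
    obtain ⟨h2, h3⟩ := h1
    have h4 : (M : ℤ) = ((B / q : ℕ) : ℤ) - ((A / q : ℕ) : ℤ) := by
      rw [hMdef]; push_cast [hle]; ring
    refine ⟨by omega, by omega, by omega⟩
  refine ⟨U.image (fun u => q * u.toNat), ?_, ?_, ?_⟩
  · intro y hy
    obtain ⟨u, hu, rfl⟩ := Finset.mem_image.1 hy
    obtain ⟨-, h2, h3⟩ := hUmem u hu
    constructor
    · exact (Nat.div_lt_iff_lt_mul hq0).1 h2 |>.trans_eq (mul_comm _ _)
    · calc q * u.toNat ≤ q * (B / q) := Nat.mul_le_mul_left _ h3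
        _ ≤ B := Nat.mul_div_le _ _
  · intro y hy l hl hl2 hlz hmod
    obtain ⟨u, hu, rfl⟩ := Finset.mem_image.1 hy
    have hl2' : l ≠ 2 := by omega
    rcases Nat.lt_or_ge (2 * p + 2) l with hlp | hlp
    · have h1 := (Finset.mem_filter.1 hu).2 l (mem_sprimes.2 ⟨hl, hlp, hlz⟩)
      apply h1
      rw [mem_Om hl.ne_zero]
      have h2 := (ZMod.natCast_eq_natCast_iff _ _ l).2 hmod
      push_cast at h2
      have h3 : (u : ZMod l) = ((u.toNat : ℕ) : ZMod l) := by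
        have : ((u.toNat : ℕ) : ℤ) = u := Int.toNat_of_nonneg (by have := (hUmem u hu).1; omega)
        conv_lhs => rw [← this]
        exact Int.cast_natCast _
      rw [h3]
      exact h2
    · have h1 : l ∣ q := dvd_qm hl hl2' hlp
      have h2 : (q * u.toNat) ^ p ≡ 0 [MOD l] := by
        rw [Nat.modEq_zero_iff_dvd]
        exact dvd_pow (h1.mul_right _) hp.ne_zero
      have h3 : l ∣ 2 ^ p := (Nat.modEq_zero_iff_dvd).1 (hmod.symm.trans h2)
      exact hl2' ((Nat.prime_dvd_prime_iff_eq hl Nat.prime_two).1 (hl.dvd_of_dvd_pow h3))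
  · have hinj : Set.InjOn (fun u : ℤ => q * u.toNat) U := by
      intro x hx y hy hxy
      have h1 := (hUmem x hx).1
      have h2 := (hUmem y hy).1
      have h3 : x.toNat = y.toNat := Nat.eq_of_mul_eq_mul_left hq0 hxy
      omega
    rw [Finset.card_image_of_injOn hinj]
    have hf := (fundamental_sum (k := p) (z := z) (Ω := Om p q) hz
      (fun l hl h1 _ => card_Om_le hp hl (qm_ne hl h1)) a M hM).1
    have hV := V_ge (q := q) hp z hz (fun l hl h1 => qm_ne hl h1)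
    have hsum : ∑ u ∈ Finset.Ico a (a + M), ∏ l ∈ sprimes (2 * p + 2) z, (1 - chi (Om p q) l u)
        = (U.card : ℝ) := by
      rw [hU, Finset.card_filter]
      push_cast
      apply Finset.sum_congr rfl
      intro u _
      rw [prod_one_sub_chi]
      by_cases h : Avoid p q z u
      · rw [if_pos h, if_pos (fun l hl => h l hl)]
      · rw [if_neg h, if_neg (fun h' => h (fun l hl => h' l hl))]
    rw [hsum] at hf
    have hM0 : (0 : ℝ) ≤ (M : ℝ) / 4 := by positivity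
    calc (M : ℝ) / (4000 * (Real.sqrt z * Real.log z))
        = (M : ℝ) / 4 * (1 / (1000 * (Real.sqrt z * Real.log z))) := by
          rw [div_mul_div_comm, mul_one]
          congr 1
          ring
      _ ≤ _ := mul_le_mul_of_nonneg_left hV hM0
      _ ≤ _ := hf

end Pool.Agent.Lib.H25E
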