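import Pool.Agent.Lib.H25E.Level
import Pool.Agent.Lib.H25E.Count

/-!
Power saving bound for `Y` at the nontrivial gcds.
-/

namespace Pool.Agent.Lib.H25E

open Finset Pool.Agent.Lib.Sieve
open Pool.Agent.Results.MP_e7655a_nt.LateGcd (a q a_succ)

/-- `kappa = 4 (198 p + 26)`. -/
def kap (p : ℕ) : ℕ := 4 * (198 * p + 26)

lemma start_Y {p N0 : ℕ} (hN0 : 1 ≤ N0) (h0 : a p N0 = 0) :
    Y p (N0 + 1) = (N0 + 1) ^ p + 2 * N0 + 1 := by
  unfold Y
  rw [start hN0 h0]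
  have h1 : 1 ≤ (N0 + 1) ^ p := Nat.one_le_pow _ _ (by omega)
  omega

/-- The key inequality, with natural number exponents. -/
lemma key {p N0 N : ℕ} (hp : p.Prime) (hN0 : 1 ≤ N0) (h0 : a p N0 = 0)
    (hne : ∀ m, N0 < m → m < N → a p m ≠ 0) {n : ℕ} (hn1 : N0 + 2 ≤ n) (hn2 : n ≤ N)
    (hG : G p n ≠ 1) :
    ∃ M : ℕ, Y p n ≤ Y p (N0 + 1) + qm p * (M + 1) ∧
      (M < 2 ^ kap p ∨ M ^ (kap p + 1) ≤ (32000 * ((N0 + 1) ^ p + N0)) ^ kap p) := by
  set A := Y p (N0 + 1) with hA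
  set B := Y p n with hB
  have hq0 := qm_pos p
  rcases Nat.lt_or_ge B A with hBA | hAB
  · refine ⟨0, by omega, Or.inl (by positivity)⟩
  set M := B / qm p - A / qm p with hM
  refine ⟨M, ?_, ?_⟩
  · have h1 : B < qm p * (B / qm p + 1) := Nat.lt_mul_div_succ B hq0
    have h2 : qm p * (A / qm p) ≤ A := Nat.mul_div_le A _
    have h3 : A / qm p ≤ B / qm p := Nat.div_le_div_right hAB
    have h4 : B / qm p = A / qm p + M := by omega
    rw [h4] at h1
    have h5 : qm p * (A / qm p + M + 1) = qm p * (A / qm p) + qm p * (M + 1) := by ring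
    omega
  · by_cases hsmall : M < 2 ^ kap p
    · exact Or.inl hsmall
    right
    push Not at hsmall
    have hk0 : 0 < kap p := by unfold kap; omega
    -- choose `w` maximal with `w ^ kap <= M`
    let P : ℕ → Prop := fun w => w ^ kap p ≤ M
    have hM0 : 0 < M := lt_of_lt_of_le (by positivity) hsmall
    have h2M : 2 ≤ M := by
      have : 2 ^ 1 ≤ 2 ^ kap p := Nat.pow_le_pow_right (by omega) hk0
      omega
    set w := Nat.findGreatest P M with hw
    have hw2 : 2 ≤ w := Nat.le_findGreatest h2M hsmall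
    have hwM : w ^ kap p ≤ M := Nat.findGreatest_spec (P := P) (m := 2) h2M hsmall
    have hw1 : M < (w + 1) ^ kap p := by
      by_contra hcon
      push Not at hcon
      have h1 : w + 1 ≤ M := (Nat.le_self_pow hk0.ne' (w + 1)).trans hcon
      have h2 : w + 1 ≤ w := Nat.le_findGreatest (P := P) h1 hcon
      omega
    have hz2 : 2 ≤ w ^ 4 := by
      calc 2 ≤ 2 ^ 4 := by norm_num
        _ ≤ w ^ 4 := Nat.pow_le_pow_left hw2 4
    have hzM : (w ^ 4) ^ (198 * p + 26) ≤ B / qm p - A / qm p := by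
      rw [← pow_mul]
      exact hwM
    obtain ⟨T, hT1, hT2, hT3⟩ := rough_count p hp (w ^ 4) hz2 A B hAB hzM
    have hNN : N0 + 1 ≤ N := by omega
    have hcard := levels_card (by have := hp.two_le; omega) hN0 h0 hne hNN hn1 hn2 hG (w ^ 4) T
      hT1 hT2
    rw [start hN0 h0] at hcard
    have h1le : 1 ≤ (N0 + 1) ^ p := Nat.one_le_pow _ _ (by omega)
    have hS : (N0 + 1) ^ p - 1 + (N0 + 1) = (N0 + 1) ^ p + N0 := by omega
    rw [hS] at hcard
    set S := (N0 + 1) ^ p + N0 with hSdef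
    -- real inequality `w M <= 16000 S`
    have hw2' : (2 : ℝ) ≤ w := by exact_mod_cast hw2
    have hw0 : (0 : ℝ) < w := by linarith
    have hsqrt : Real.sqrt ((w ^ 4 : ℕ) : ℝ) = (w : ℝ) ^ 2 := by
      rw [Real.sqrt_eq_iff_mul_self_eq (by positivity) (by positivity)]
      push_cast
      ring
    have hlog : Real.log ((w ^ 4 : ℕ) : ℝ) ≤ 4 * w := by
      push_cast
      rw [Real.log_pow]
      have := Real.log_le_sub_one_of_pos hw0
      push_cast
      linarith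
    have hlog0 : 0 < Real.log ((w ^ 4 : ℕ) : ℝ) := by
      apply Real.log_pos
      exact_mod_cast (by omega : 1 < w ^ 4)
    have hreal : (w : ℝ) * M ≤ 16000 * S := by
      have h1 : (M : ℝ) ≤ T.card * (4000 * (Real.sqrt ((w ^ 4 : ℕ) : ℝ) *
          Real.log ((w ^ 4 : ℕ) : ℝ))) := by
        rw [div_le_iff₀ (by rw [hsqrt]; positivity)] at hT3
        exact hT3
      have h2 : (M : ℝ) ≤ T.card * (16000 * (w : ℝ) ^ 3) := by
        refine h1.trans ?_
        apply mul_le_mul_of_nonneg_left _ (Nat.cast_nonneg _)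
        rw [hsqrt]
        have : (w : ℝ) ^ 2 * Real.log ((w ^ 4 : ℕ) : ℝ) ≤ (w : ℝ) ^ 2 * (4 * w) :=
          mul_le_mul_of_nonneg_left hlog (by positivity)
        calc 4000 * ((w : ℝ) ^ 2 * Real.log ((w ^ 4 : ℕ) : ℝ)) ≤ 4000 * ((w : ℝ) ^ 2 * (4 * w)) := by
              linarith
          _ = 16000 * (w : ℝ) ^ 3 := by ring
      have h3 : ((w ^ 4 : ℕ) : ℝ) * T.card ≤ S := by exact_mod_cast hcard
      push_cast at h3
      calc (w : ℝ) * M ≤ w * (T.card * (16000 * (w : ℝ) ^ 3)) :=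
            mul_le_mul_of_nonneg_left h2 hw0.le
        _ = 16000 * ((w : ℝ) ^ 4 * T.card) := by ring
        _ ≤ 16000 * S := by linarith
    have hnat : w * M ≤ 16000 * S := by exact_mod_cast hreal
    calc M ^ (kap p + 1) = M ^ kap p * M := pow_succ _ _
      _ ≤ M ^ kap p * (w + 1) ^ kap p := Nat.mul_le_mul_left _ hw1.le
      _ ≤ M ^ kap p * (2 * w) ^ kap p := by
          apply Nat.mul_le_mul_left
          exact Nat.pow_le_pow_left (by omega) _
      _ = (2 * (w * M)) ^ kap p := by rw [← mul_pow]; ring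
      _ ≤ (32000 * S) ^ kap p := Nat.pow_le_pow_left (by omega) _

lemma succ_pow_le (x : ℕ) : ∀ k : ℕ, (x + 1) ^ (k + 1) ≤ x ^ (k + 1) + (k + 1) * (x + 1) ^ k := by
  intro k
  induction k with
  | zero => simp
  | succ k ih =>
    calc (x + 1) ^ (k + 1 + 1) = (x + 1) ^ (k + 1) * x + (x + 1) ^ (k + 1) := by ring
      _ ≤ (x ^ (k + 1) + (k + 1) * (x + 1) ^ k) * x + (x + 1) ^ (k + 1) :=
          Nat.add_le_add_right (Nat.mul_le_mul_right _ ih) _
      _ = x ^ (k + 1 + 1) + (k + 1) * ((x + 1) ^ k * x) + (x + 1) ^ (k + 1) := by ring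
      _ ≤ x ^ (k + 1 + 1) + (k + 1) * ((x + 1) ^ k * (x + 1)) + (x + 1) ^ (k + 1) := by
          gcongr
          omega
      _ = _ := by ring

/-- The exponent saved. -/
noncomputable def del (p : ℕ) : ℝ := (p : ℝ) / (kap p + 1)

lemma del_pos {p : ℕ} (hp : p.Prime) : 0 < del p := by
  unfold del
  have : (0 : ℝ) < p := by exact_mod_cast hp.pos
  positivity

lemma del_le_half {p : ℕ} : del p ≤ 1 / 2 := by
  unfold del kap
  rw [div_le_div_iff₀ (by positivity) (by norm_num)]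
  push_cast
  have : (0 : ℝ) ≤ p := Nat.cast_nonneg _
  nlinarith

/-- The constant. -/
noncomputable def Cst (p : ℕ) : ℝ :=
  p * 2 ^ (p - 1) + 3 + qm p * (2 ^ kap p + 1 + 32000 * (2 ^ p + 1))

lemma S_le {p N0 : ℕ} (hp : p.Prime) (hN0 : 1 ≤ N0) :
    (((N0 + 1) ^ p + N0 : ℕ) : ℝ) ≤ (2 ^ p + 1) * (N0 : ℝ) ^ p := by
  have h1 : (N0 + 1) ^ p ≤ (2 * N0) ^ p := Nat.pow_le_pow_left (by omega) p
  have h2 : N0 ≤ N0 ^ p := Nat.le_self_pow hp.ne_zero N0
  have h3 : (N0 + 1) ^ p + N0 ≤ (2 ^ p + 1) * N0 ^ p := by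
    rw [mul_pow] at h1
    calc (N0 + 1) ^ p + N0 ≤ 2 ^ p * N0 ^ p + N0 ^ p := by omega
      _ = _ := by ring
  exact_mod_cast h3

lemma start_bound {p N0 : ℕ} (hp : p.Prime) (hN0 : 1 ≤ N0) (h0 : a p N0 = 0) :
    (Y p (N0 + 1) : ℝ) ≤ (N0 : ℝ) ^ p + (p * 2 ^ (p - 1) + 3) * (N0 : ℝ) ^ ((p : ℝ) - del p) := by
  rw [start_Y hN0 h0]
  obtain ⟨k, rfl⟩ : ∃ k, p = k + 1 := ⟨p - 1, by have := hp.two_le; omega⟩
  have hk1 : 1 ≤ k := by have := hp.two_le; omega
  have h1 := succ_pow_le N0 k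
  have h2 : (N0 + 1) ^ k ≤ (2 * N0) ^ k := Nat.pow_le_pow_left (by omega) k
  have h3 : N0 ≤ N0 ^ k := Nat.le_self_pow (by omega) N0
  have h4 : (N0 + 1) ^ (k + 1) + 2 * N0 + 1 ≤
      N0 ^ (k + 1) + ((k + 1) * 2 ^ k + 3) * N0 ^ k := by
    rw [mul_pow] at h2
    have h5 : (k + 1) * (N0 + 1) ^ k ≤ (k + 1) * (2 ^ k * N0 ^ k) := Nat.mul_le_mul_left _ h2
    calc (N0 + 1) ^ (k + 1) + 2 * N0 + 1
        ≤ N0 ^ (k + 1) + (k + 1) * (2 ^ k * N0 ^ k) + 3 * N0 ^ k := by omega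
      _ = _ := by ring
  have h5 : (((N0 + 1) ^ (k + 1) + 2 * N0 + 1 : ℕ) : ℝ) ≤
      (N0 : ℝ) ^ (k + 1) + ((k + 1 : ℝ) * 2 ^ k + 3) * (N0 : ℝ) ^ k := by exact_mod_cast h4
  have hN0' : (1 : ℝ) ≤ N0 := by exact_mod_cast hN0
  have h6 : (N0 : ℝ) ^ k ≤ (N0 : ℝ) ^ (((k + 1 : ℕ) : ℝ) - del (k + 1)) := by
    rw [← Real.rpow_natCast]
    apply Real.rpow_le_rpow_of_exponent_le hN0'
    have := del_le_half (p := k + 1)
    push_cast
    linarith
  refine h5.trans ?_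
  have h7 : k + 1 - 1 = k := by omega
  rw [h7]
  push_cast at h6 ⊢
  have h8 : (0 : ℝ) ≤ (k + 1 : ℝ) * 2 ^ k + 3 := by positivity
  have := mul_le_mul_of_nonneg_left h6 h8
  linarith

/-- The main bound, with real exponents. -/
lemma bound {p N0 N : ℕ} (hp : p.Prime) (hN0 : 1 ≤ N0) (h0 : a p N0 = 0)
    (hne : ∀ m, N0 < m → m < N → a p m ≠ 0) {n : ℕ} (hn1 : N0 + 2 ≤ n) (hn2 : n ≤ N)
    (hG : G p n ≠ 1) :
    (Y p n : ℝ) ≤ (N0 : ℝ) ^ p + Cst p * (N0 : ℝ) ^ ((p : ℝ) - del p) := by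
  obtain ⟨M, h1, h2⟩ := key hp hN0 h0 hne hn1 hn2 hG
  have hst := start_bound hp hN0 h0
  have hN0' : (1 : ℝ) ≤ N0 := by exact_mod_cast hN0
  have hN00 : (0 : ℝ) < N0 := by linarith
  have hX1 : (1 : ℝ) ≤ (N0 : ℝ) ^ ((p : ℝ) - del p) := by
    apply Real.one_le_rpow hN0'
    have := del_le_half (p := p)
    have : (2 : ℝ) ≤ p := by exact_mod_cast hp.two_le
    linarith
  set X := (N0 : ℝ) ^ ((p : ℝ) - del p) with hX
  have hMX : (M : ℝ) + 1 ≤ (2 ^ kap p + 1 + 32000 * (2 ^ p + 1)) * X := by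
    rcases h2 with h2 | h2
    · have h3 : (M : ℝ) ≤ 2 ^ kap p := by exact_mod_cast h2.le
      have h4 : (2 : ℝ) ^ kap p + 1 ≤ (2 ^ kap p + 1) * X :=
        le_mul_of_one_le_right (by positivity) hX1
      have h5 : (0 : ℝ) ≤ 32000 * (2 ^ p + 1) * X := by positivity
      linarith
    · -- `M <= (32000 S)^(kap/(kap+1))`
      have hS := S_le hp hN0
      have h3 : (M : ℝ) ^ (kap p + 1) ≤ (32000 * ((2 ^ p + 1) * (N0 : ℝ) ^ p)) ^ kap p := by
        calc (M : ℝ) ^ (kap p + 1) ≤ (32000 * (((N0 + 1) ^ p + N0 : ℕ) : ℝ)) ^ kap p := by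
              exact_mod_cast h2
          _ ≤ _ := by
              apply pow_le_pow_left₀ (by positivity)
              linarith
      have hc1 : (1 : ℝ) ≤ 32000 * (2 ^ p + 1) := by
        have : (0 : ℝ) < 2 ^ p := by positivity
        linarith
      have hXk : X ^ (kap p + 1) = (N0 : ℝ) ^ (p * kap p) := by
        rw [hX, ← Real.rpow_natCast, ← Real.rpow_mul hN00.le, ← Real.rpow_natCast]
        congr 1
        unfold del
        have : ((kap p : ℝ) + 1) ≠ 0 := by positivity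
        push_cast
        field_simp
        ring
      have h4 : (M : ℝ) ^ (kap p + 1) ≤ (32000 * (2 ^ p + 1) * X) ^ (kap p + 1) := by
        refine h3.trans ?_
        rw [mul_pow (32000 * (2 ^ p + 1)) X, hXk, pow_succ (32000 * ((2 : ℝ) ^ p + 1))]
        have e1 : (32000 * ((2 ^ p + 1) * (N0 : ℝ) ^ p)) ^ kap p =
            (32000 * (2 ^ p + 1)) ^ kap p * 1 * (N0 : ℝ) ^ (p * kap p) := by
          rw [← mul_assoc, mul_pow, ← pow_mul, mul_one]
        rw [e1]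
        apply mul_le_mul_of_nonneg_right _ (by positivity)
        exact mul_le_mul_of_nonneg_left hc1 (by positivity)
      have h5 : (M : ℝ) ≤ 32000 * (2 ^ p + 1) * X :=
        le_of_pow_le_pow_left₀ (Nat.succ_ne_zero _) (by positivity) h4
      have h6 : (1 : ℝ) ≤ (2 ^ kap p + 1) * X := by
        have : (1 : ℝ) ≤ 2 ^ kap p + 1 := by
          have : (0 : ℝ) < 2 ^ kap p := by positivity
          linarith
        calc (1 : ℝ) = 1 * 1 := by ring
          _ ≤ _ := mul_le_mul this hX1 (by norm_num) (by positivity)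
      linarith
  have h7 : (Y p n : ℝ) ≤ Y p (N0 + 1) + qm p * ((M : ℝ) + 1) := by exact_mod_cast h1
  have h8 : (qm p : ℝ) * ((M : ℝ) + 1) ≤ qm p * ((2 ^ kap p + 1 + 32000 * (2 ^ p + 1)) * X) :=
    mul_le_mul_of_nonneg_left hMX (Nat.cast_nonneg _)
  unfold Cst
  nlinarith

end Pool.Agent.Lib.H25E
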