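import Pool.Agent.Results.MP_e7655a_nt.LateGcd

/-!
Level argument for the gcd recursion between two consecutive zeros `N0 < N`.
`Y n = a_p(n) + 2 n` increases by at most `1` from one nontrivial gcd to the next one, and by
exactly `1` only if that gcd is a prime dividing `Y^p - 2^p` and equal to the waiting time.
-/

namespace Pool.Agent.Lib.H25E

open Finset
open Pool.Agent.Results.MP_e7655a_nt.LateGcd (a q a_succ)

/-- The gcd used at the index `n`. -/
def G (p n : ℕ) : ℕ := Nat.gcd (a p (n - 1)) (n ^ p - 1)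

/-- `Y = a + 2n`. -/
def Y (p n : ℕ) : ℕ := a p n + 2 * n

section

variable {p N0 N : ℕ}

lemma start (hN0 : 1 ≤ N0) (h0 : a p N0 = 0) : a p (N0 + 1) = (N0 + 1) ^ p - 1 := by
  have h := a_succ p (N0 + 1) (by omega)
  have he : N0 + 1 - 1 = N0 := by omega
  rw [he, h0, Nat.gcd_zero_left] at h
  rw [h]
  omega

lemma step (hne : ∀ m, N0 < m → m < N → a p m ≠ 0) {n : ℕ} (h1 : N0 + 2 ≤ n) (h2 : n ≤ N) :
    a p n + G p n = a p (n - 1) ∧ 1 ≤ G p n := by
  have hpos : 0 < a p (n - 1) := Nat.pos_of_ne_zero (hne (n - 1) (by omega) (by omega))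
  have hle : G p n ≤ a p (n - 1) := Nat.gcd_le_left _ hpos
  have hG : 0 < G p n := Nat.gcd_pos_of_pos_left _ hpos
  have h := a_succ p n (by omega)
  change a p n = ((a p (n - 1) : ℤ) - (G p n : ℤ)).natAbs at h
  omega

lemma parity (hp : 1 ≤ p) (hN0 : 1 ≤ N0) (h0 : a p N0 = 0)
    (hne : ∀ m, N0 < m → m < N → a p m ≠ 0) :
    ∀ n, N0 + 1 ≤ n → n ≤ N → (n + a p n) % 2 = 1 ∧ (N0 + 2 ≤ n → G p n % 2 = 1) := by
  intro n hn
  induction n, hn using Nat.le_induction with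
  | base =>
    intro _
    refine ⟨?_, fun h => by omega⟩
    rw [start hN0 h0]
    have h1 : 1 ≤ (N0 + 1) ^ p := Nat.one_le_pow _ _ (by omega)
    have h2 : (N0 + 1) ^ p % 2 = (N0 + 1) % 2 := by
      rcases Nat.mod_two_eq_zero_or_one (N0 + 1) with h | h
      · rw [Nat.pow_mod, h, Nat.zero_pow (by omega)]
      · rw [Nat.pow_mod, h]; simp
    omega
  | succ n hn ih =>
    intro hn2
    obtain ⟨ih1, -⟩ := ih (by omega)
    obtain ⟨hs, hs1⟩ := step hne (n := n + 1) (by omega) hn2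
    have he : n + 1 - 1 = n := by omega
    rw [he] at hs
    have hG : G p (n + 1) % 2 = 1 := by
      rcases Nat.mod_two_eq_zero_or_one (n + 1) with h | h
      · -- `n + 1` even: `(n+1)^p - 1` odd
        have h1 : (n + 1) ^ p % 2 = 0 := by
          rw [Nat.pow_mod, h, Nat.zero_pow (by omega)]
        have h2 : 1 ≤ (n + 1) ^ p := Nat.one_le_pow _ _ (by omega)
        have h3 : ((n + 1) ^ p - 1) % 2 = 1 := by omega
        have h4 : G p (n + 1) ∣ (n + 1) ^ p - 1 := Nat.gcd_dvd_right _ _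
        exact Nat.odd_iff.1 (Odd.of_dvd_nat (Nat.odd_iff.2 h3) h4)
      · have h3 : a p n % 2 = 1 := by omega
        have h4 : G p (n + 1) ∣ a p n := by
          have := Nat.gcd_dvd_left (a p (n + 1 - 1)) ((n + 1) ^ p - 1)
          rwa [he] at this
        exact Nat.odd_iff.1 (Odd.of_dvd_nat (Nat.odd_iff.2 h3) h4)
    refine ⟨by omega, fun _ => hG⟩

lemma run (hne : ∀ m, N0 < m → m < N → a p m ≠ 0) {e n : ℕ} (he : N0 + 1 ≤ e) (hn : n ≤ N)
    (htriv : ∀ m, e < m → m < n → G p m = 1) :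
    ∀ m, e ≤ m → m < n → a p m + (m - e) = a p e := by
  intro m hm
  induction m, hm using Nat.le_induction with
  | base => intro _; simp
  | succ m hm ih =>
    intro hm2
    have ih1 := ih (by omega)
    obtain ⟨hs, -⟩ := step hne (n := m + 1) (by omega) (by omega)
    rw [htriv (m + 1) (by omega) hm2] at hs
    have h3 : m + 1 - 1 = m := by omega
    rw [h3] at hs
    omega

lemma wait (hne : ∀ m, N0 < m → m < N → a p m ≠ 0) {e n : ℕ} (he : N0 + 1 ≤ e) (hen : e < n)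
    (hn : n ≤ N) (htriv : ∀ m, e < m → m < n → G p m = 1) {l : ℕ} (hl : l.Prime)
    (hld : l ∣ G p n) : n - e ≤ l := by
  by_contra hlt
  push Not at hlt
  have hl2 := hl.two_le
  have h1 := run hne he hn htriv (n - 1) (by omega) (by omega)
  have h2 := run hne he hn htriv (n - l - 1) (by omega) (by omega)
  have h3 : a p (n - l - 1) = a p (n - 1) + l := by omega
  have h4 : G p (n - l) = 1 := htriv (n - l) (by omega) (by omega)
  have h5 : l ∣ a p (n - 1) := hld.trans (Nat.gcd_dvd_left _ _)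
  have h6 : l ∣ n ^ p - 1 := hld.trans (Nat.gcd_dvd_right _ _)
  have h7 : l ∣ a p (n - l - 1) := by rw [h3]; exact Dvd.dvd.add h5 (dvd_refl l)
  have h8 : (n - l) ^ p ≡ n ^ p [MOD l] := by
    apply Nat.ModEq.pow
    have : n = (n - l) + l := by omega
    conv_rhs => rw [this]
    simp [Nat.ModEq]
  have h9 : 1 ≤ n ^ p := Nat.one_le_pow _ _ (by omega)
  have h10 : 1 ≤ (n - l) ^ p := Nat.one_le_pow _ _ (by omega)
  have h11 : 1 ≡ n ^ p [MOD l] := (Nat.modEq_iff_dvd' h9).2 h6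
  have h12 : l ∣ (n - l) ^ p - 1 := (Nat.modEq_iff_dvd' h10).1 (h11.trans h8.symm)
  have h13 : l ∣ G p (n - l) := Nat.dvd_gcd h7 h12
  rw [h4] at h13
  exact hl.one_lt.ne' (Nat.dvd_one.1 h13)

lemma level_step (hne : ∀ m, N0 < m → m < N → a p m ≠ 0) {e n : ℕ} (he : N0 + 1 ≤ e)
    (hen : e < n) (hn : n ≤ N) (htriv : ∀ m, e < m → m < n → G p m = 1) (hG : G p n ≠ 1) :
    Y p n ≤ Y p e + 1 ∧ (Y p n = Y p e + 1 → (G p n).Prime) := by
  have h1 := run hne he hn htriv (n - 1) (by omega) (by omega)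
  obtain ⟨h2, h3⟩ := step hne (n := n) (by omega) hn
  have hw := wait hne he hen hn htriv (Nat.minFac_prime hG) (Nat.minFac_dvd _)
  have hle : (G p n).minFac ≤ G p n := Nat.minFac_le (by omega)
  unfold Y
  refine ⟨by omega, fun heq => ?_⟩
  have h4 : (G p n).minFac = G p n := by omega
  rw [← h4]
  exact Nat.minFac_prime hG

lemma pow_modEq (hne : ∀ m, N0 < m → m < N → a p m ≠ 0) {n : ℕ} (h1 : N0 + 2 ≤ n)
    (h2 : n ≤ N) : (Y p n) ^ p ≡ 2 ^ p [MOD (G p n)] := by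
  obtain ⟨h3, -⟩ := step hne h1 h2
  have h4 : G p n ∣ a p (n - 1) := Nat.gcd_dvd_left _ _
  have h5 : G p n ∣ a p n := by
    rw [← h3] at h4
    exact (Nat.dvd_add_left (dvd_refl _)).1 h4
  have h6 : G p n ∣ n ^ p - 1 := Nat.gcd_dvd_right _ _
  have h7 : 1 ≤ n ^ p := Nat.one_le_pow _ _ (by omega)
  have h8 : 1 ≡ n ^ p [MOD (G p n)] := (Nat.modEq_iff_dvd' h7).2 h6
  have h9 : Y p n ≡ 2 * n [MOD (G p n)] := by
    unfold Y
    have : a p n ≡ 0 [MOD (G p n)] := Nat.modEq_zero_iff_dvd.2 h5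
    simpa using this.add_right (2 * n)
  calc (Y p n) ^ p ≡ (2 * n) ^ p [MOD (G p n)] := h9.pow p
    _ = 2 ^ p * n ^ p := mul_pow _ _ _
    _ ≡ 2 ^ p * 1 [MOD (G p n)] := (h8.symm).mul_left _
    _ = 2 ^ p := mul_one _

/-- The last index `e < n` with a nontrivial gcd (or the start). -/
lemma exists_pred {n : ℕ} (hn : N0 + 2 ≤ n) :
    ∃ e, N0 + 1 ≤ e ∧ e < n ∧ (e = N0 + 1 ∨ (N0 + 2 ≤ e ∧ G p e ≠ 1)) ∧
      ∀ m, e < m → m < n → G p m = 1 := by
  classical
  let P : ℕ → Prop := fun e => e = N0 + 1 ∨ (N0 + 2 ≤ e ∧ G p e ≠ 1)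
  have hP : P (N0 + 1) := Or.inl rfl
  refine ⟨Nat.findGreatest P (n - 1), Nat.le_findGreatest (by omega) hP, ?_, ?_, ?_⟩
  · have := Nat.findGreatest_le (P := P) (n - 1)
    omega
  · exact Nat.findGreatest_spec (P := P) (m := N0 + 1) (by omega) hP
  · intro m hm1 hm2
    have hge : N0 + 1 ≤ Nat.findGreatest P (n - 1) := Nat.le_findGreatest (by omega) hP
    have h := Nat.findGreatest_is_greatest (P := P) hm1 (by omega)
    by_contra hne
    exact h (Or.inr ⟨by omega, hne⟩)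

/-- Every level between `Y (N0+1)` and `Y n` is attained at a nontrivial gcd which is a prime
dividing `y^p - 2^p`. -/
lemma level (hp : 1 ≤ p) (hN0 : 1 ≤ N0) (h0 : a p N0 = 0)
    (hne : ∀ m, N0 < m → m < N → a p m ≠ 0) :
    ∀ n, N0 + 2 ≤ n → n ≤ N → G p n ≠ 1 → ∀ y, Y p (N0 + 1) < y → y ≤ Y p n →
      ∃ k, N0 + 2 ≤ k ∧ k ≤ N ∧ Y p k = y ∧ (G p k).Prime ∧ G p k % 2 = 1 ∧
        y ^ p ≡ 2 ^ p [MOD (G p k)] := by
  intro n
  induction n using Nat.strong_induction_on with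
  | _ n ih =>
    intro hn1 hn2 hG y hy1 hy2
    obtain ⟨e, he1, he2, he3, he4⟩ := exists_pred (p := p) hn1
    obtain ⟨hs1, hs2⟩ := level_step hne he1 he2 hn2 he4 hG
    rcases Nat.lt_or_ge (Y p e) y with h | h
    · have h1 : Y p n = y := by omega
      refine ⟨n, hn1, hn2, h1, hs2 (by omega), (parity hp hN0 h0 hne n (by omega) hn2).2 hn1, ?_⟩
      rw [← h1]
      exact pow_modEq hne hn1 hn2
    · rcases he3 with he3 | ⟨he3, he5⟩
      · subst he3; omega
      · exact ih e he2 he3 (by omega) he5 y hy1 h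

lemma sum_G (hne : ∀ m, N0 < m → m < N → a p m ≠ 0) :
    ∀ n, N0 + 1 ≤ n → n ≤ N →
      (∑ k ∈ Icc (N0 + 2) n, (G p k - 1)) + (a p n + n) = a p (N0 + 1) + (N0 + 1) := by
  intro n hn
  induction n, hn using Nat.le_induction with
  | base => intro _; simp
  | succ n hn ih =>
    intro hn2
    have ih1 := ih (by omega)
    obtain ⟨hs, hs1⟩ := step hne (n := n + 1) (by omega) hn2
    have he : n + 1 - 1 = n := by omega
    rw [he] at hs
    rw [Finset.sum_Icc_succ_top (by omega : N0 + 2 ≤ n + 1)]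
    omega

/-- If `T` is a set of levels in `(Y (N0+1), Y n]` such that no odd prime `l <= z` satisfies
`y^p = 2^p mod l` for `y ∈ T`, then `z |T| <= a(N0+1) + N0 + 1`. -/
lemma levels_card (hp : 1 ≤ p) (hN0 : 1 ≤ N0) (h0 : a p N0 = 0)
    (hne : ∀ m, N0 < m → m < N → a p m ≠ 0) (hNN : N0 + 1 ≤ N)
    {n : ℕ} (hn1 : N0 + 2 ≤ n) (hn2 : n ≤ N)
    (hG : G p n ≠ 1) (z : ℕ) (T : Finset ℕ) (hT : ∀ y ∈ T, Y p (N0 + 1) < y ∧ y ≤ Y p n)
    (hz : ∀ y ∈ T, ∀ l : ℕ, l.Prime → l % 2 = 1 → l ≤ z → ¬ (y ^ p ≡ 2 ^ p [MOD l])) :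
    z * T.card ≤ a p (N0 + 1) + (N0 + 1) := by
  classical
  have hex : ∀ y : ℕ, ∃ k, y ∈ T → (N0 + 2 ≤ k ∧ k ≤ N ∧ Y p k = y ∧ (G p k).Prime ∧
      G p k % 2 = 1 ∧ y ^ p ≡ 2 ^ p [MOD (G p k)]) := by
    intro y
    by_cases hy : y ∈ T
    · obtain ⟨k, hk⟩ := level hp hN0 h0 hne n hn1 hn2 hG y (hT y hy).1 (hT y hy).2
      exact ⟨k, fun _ => hk⟩
    · exact ⟨0, fun h => absurd h hy⟩
  choose f hf using hex
  have hinj : Set.InjOn f T := by
    intro x hx y hy hxy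
    have h1 := (hf x hx).2.2.1
    have h2 := (hf y hy).2.2.1
    rw [hxy] at h1
    exact h1.symm.trans h2
  have hsub : T.image f ⊆ Icc (N0 + 2) N := by
    intro k hk
    obtain ⟨y, hy, rfl⟩ := Finset.mem_image.1 hk
    exact Finset.mem_Icc.2 ⟨(hf y hy).1, (hf y hy).2.1⟩
  have hsum := sum_G hne N hNN le_rfl
  calc z * T.card = ∑ y ∈ T, z := by simp [mul_comm]
    _ ≤ ∑ y ∈ T, (G p (f y) - 1) := by
        apply Finset.sum_le_sum
        intro y hy
        obtain ⟨-, -, -, h4, h5, h6⟩ := hf y hy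
        have := hz y hy _ h4 h5
        by_contra hlt
        exact this (by omega) h6
    _ = ∑ k ∈ T.image f, (G p k - 1) := by
        rw [Finset.sum_image (fun x hx y hy h => hinj hx hy h)]
    _ ≤ ∑ k ∈ Icc (N0 + 2) N, (G p k - 1) := Finset.sum_le_sum_of_subset hsub
    _ ≤ _ := by omega

end

end Pool.Agent.Lib.H25E
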