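import Pool.Agent.Lib.Sieve.Gap
import Pool.Agent.Lib.Helper57.Mertens

/-!
Many integers `y` in an interval such that `y^p <> 2^p` modulo all odd primes `l <= z`.
-/

namespace Pool.Agent.Lib.H25E

open Finset Pool.Agent.Lib.Sieve

/-- The classes `x mod l` with `(q x)^p = 2^p`. -/
noncomputable def Om (p q : ℕ) (l : ℕ) : Finset (ZMod l) := by
  classical
  exact if h : l = 0 then ∅ else
    haveI : NeZero l := ⟨h⟩
    Finset.univ.filter (fun x : ZMod l => ((q : ZMod l) * x) ^ p = 2 ^ p)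

lemma mem_Om {p q l : ℕ} (hl : l ≠ 0) (x : ZMod l) :
    x ∈ Om p q l ↔ ((q : ZMod l) * x) ^ p = 2 ^ p := by
  unfold Om
  rw [dif_neg hl]
  simp

lemma card_Om_le {p q l : ℕ} (hp : p.Prime) (hl : l.Prime) (hq : (q : ZMod l) ≠ 0) :
    (Om p q l).card ≤ p := by
  classical
  have : Fact l.Prime := ⟨hl⟩
  have hsub : (Om p q l).image (fun x => (q : ZMod l) * x) ⊆
      (Polynomial.nthRoots p ((2 : ZMod l) ^ p)).toFinset := by
    intro y hy
    obtain ⟨x, hx, rfl⟩ := Finset.mem_image.1 hy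
    rw [Multiset.mem_toFinset, Polynomial.mem_nthRoots hp.pos]
    exact (mem_Om hl.ne_zero x).1 hx
  have hinj : Function.Injective (fun x : ZMod l => (q : ZMod l) * x) := mul_right_injective₀ hq
  calc (Om p q l).card = ((Om p q l).image (fun x => (q : ZMod l) * x)).card :=
        (Finset.card_image_of_injective _ hinj).symm
    _ ≤ (Polynomial.nthRoots p ((2 : ZMod l) ^ p)).toFinset.card := Finset.card_le_card hsub
    _ ≤ Multiset.card (Polynomial.nthRoots p ((2 : ZMod l) ^ p)) := Multiset.toFinset_card_le _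
    _ ≤ p := Polynomial.card_nthRoots _ _

lemma card_Om_le_one {p q l : ℕ} (hp : p.Prime) (hl : l.Prime) (hl2 : l ≠ 2)
    (hq : (q : ZMod l) ≠ 0) (hpl : ¬ p ∣ l - 1) : (Om p q l).card ≤ 1 := by
  have : Fact l.Prime := ⟨hl⟩
  rw [Finset.card_le_one]
  intro x hx y hy
  rw [mem_Om hl.ne_zero] at hx hy
  have h2 : (2 : ZMod l) ≠ 0 := by
    intro h
    have h3 : ((2 : ℕ) : ZMod l) = 0 := by exact_mod_cast h
    rw [ZMod.natCast_eq_zero_iff] at h3
    exact hl2 ((Nat.prime_dvd_prime_iff_eq hl Nat.prime_two).1 h3)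
  have hy0 : (q : ZMod l) * y ≠ 0 := by
    intro h
    rw [h, zero_pow hp.ne_zero] at hy
    exact pow_ne_zero p h2 hy.symm
  have hx0 : (q : ZMod l) * x ≠ 0 := by
    intro h
    rw [h, zero_pow hp.ne_zero] at hx
    exact pow_ne_zero p h2 hx.symm
  set u := ((q : ZMod l) * x) / ((q : ZMod l) * y) with hu
  have hu0 : u ≠ 0 := div_ne_zero hx0 hy0
  have h3 : u ^ p = 1 := by
    rw [hu, div_pow, hx, hy, div_self (pow_ne_zero p h2)]
  have h4 : u ^ (l - 1) = 1 := ZMod.pow_card_sub_one_eq_one hu0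
  have h5 : u ^ (Nat.gcd p (l - 1)) = 1 := pow_gcd_eq_one.2 ⟨h3, h4⟩
  have h6 : Nat.gcd p (l - 1) = 1 := (Nat.Prime.coprime_iff_not_dvd hp).2 hpl
  rw [h6, pow_one] at h5
  have h7 : (q : ZMod l) * x = (q : ZMod l) * y := by
    rw [hu, div_eq_one_iff_eq hy0] at h5
    exact h5
  exact mul_left_cancel₀ hq h7

lemma prod_le_of_subset {ι : Type*} [DecidableEq ι] {S T : Finset ι} (h : S ⊆ T) (f : ι → ℝ)
    (h0 : ∀ i ∈ T, 0 ≤ f i) (h1 : ∀ i ∈ T, f i ≤ 1) : ∏ i ∈ T, f i ≤ ∏ i ∈ S, f i := by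
  rw [← Finset.prod_sdiff h]
  have h2 : ∏ i ∈ T \ S, f i ≤ 1 :=
    Finset.prod_le_one (fun i hi => h0 i (Finset.mem_sdiff.1 hi).1)
      (fun i hi => h1 i (Finset.mem_sdiff.1 hi).1)
  have h3 : 0 ≤ ∏ i ∈ S, f i := Finset.prod_nonneg fun i hi => h0 i (h hi)
  calc _ ≤ 1 * ∏ i ∈ S, f i := mul_le_mul_of_nonneg_right h2 h3
    _ = _ := one_mul _

lemma beta_sq (n : ℕ) (hn : 1 ≤ n) :
    1 ≤ (∏ i ∈ Icc 1 n, (1 - 1 / (2 * (i : ℝ)))) ^ 2 * (4 * n) := by
  induction n, hn using Nat.le_induction with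
  | base => norm_num
  | succ n hn ih =>
    rw [Finset.prod_Icc_succ_top (by omega)]
    set b := ∏ i ∈ Icc 1 n, (1 - 1 / (2 * (i : ℝ))) with hb
    have hn' : (1 : ℝ) ≤ n := by exact_mod_cast hn
    push_cast
    have h1 : (b * (1 - 1 / (2 * ((n : ℝ) + 1)))) ^ 2 * (4 * ((n : ℝ) + 1)) =
        b ^ 2 * (4 * n) * ((2 * n + 1) ^ 2 / (4 * n * (n + 1))) := by
      field_simp
      ring
    rw [h1]
    have h2 : 1 ≤ (2 * (n : ℝ) + 1) ^ 2 / (4 * n * (n + 1)) := by
      rw [one_le_div (by positivity)]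
      nlinarith
    calc (1 : ℝ) = 1 * 1 := by ring
      _ ≤ _ := mul_le_mul ih h2 (by norm_num) (by positivity)

lemma beta_ge (n : ℕ) (hn : 1 ≤ n) :
    1 / (2 * Real.sqrt n) ≤ ∏ i ∈ Icc 1 n, (1 - 1 / (2 * (i : ℝ))) := by
  have hn' : (1 : ℝ) ≤ n := by exact_mod_cast hn
  have h := beta_sq n hn
  set b := ∏ i ∈ Icc 1 n, (1 - 1 / (2 * (i : ℝ))) with hb
  have hb0 : 0 ≤ b := by
    apply Finset.prod_nonneg
    intro i hi
    have h1 : (1 : ℝ) ≤ i := by exact_mod_cast (Finset.mem_Icc.1 hi).1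
    have : 1 / (2 * (i : ℝ)) ≤ 1 := by
      rw [div_le_one (by positivity)]; linarith
    linarith
  have hs : 0 < Real.sqrt n := Real.sqrt_pos.2 (by linarith)
  rw [div_le_iff₀ (by positivity)]
  have h2 : Real.sqrt n ^ 2 = n := Real.sq_sqrt (by linarith)
  have h3 : 1 ≤ (b * (2 * Real.sqrt n)) ^ 2 := by
    calc (1 : ℝ) ≤ b ^ 2 * (4 * n) := h
      _ = _ := by rw [mul_pow, mul_pow, h2]; ring
  nlinarith [mul_nonneg hb0 hs.le]

/-- The modulus of the index map. -/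
def sm (p : ℕ) : ℕ := if p = 2 then 2 else 2 * p

lemma sm_pos {p : ℕ} (hp : p.Prime) : 2 ≤ sm p := by
  unfold sm
  have := hp.two_le
  split_ifs <;> omega

lemma sm_ge (p : ℕ) : 2 * p ≤ 2 + sm p := by
  unfold sm
  split_ifs <;> omega

lemma sm_dvd {p l : ℕ} (hp : p.Prime) (hl : l % 2 = 1) (h : p ∣ l - 1) : sm p ∣ l - 1 := by
  unfold sm
  have h2 : 2 ∣ l - 1 := by omega
  split_ifs with hp2
  · exact h2
  · have hc : Nat.Coprime 2 p := (Nat.coprime_primes Nat.prime_two hp).2 (fun h => hp2 h.symm)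
    exact hc.mul_dvd_of_dvd_of_dvd h2 h

lemma factor_ge {p q l : ℕ} (hp : p.Prime) (hl : l.Prime) (hlp : 2 * p + 2 < l)
    (hq : (q : ZMod l) ≠ 0) :
    (1 - 1 / (l : ℝ)) * (if p ∣ l - 1 then 1 - 1 / (2 * (((l - 1) / sm p : ℕ) : ℝ)) else 1) ≤
      1 - Sieve.dens (Om p q) l := by
  have hl0 : (0 : ℝ) < l := by exact_mod_cast hl.pos
  have hp2 := hp.two_le
  have hodd : l % 2 = 1 := by
    rcases hl.eq_two_or_odd with h | h <;> omega
  unfold Sieve.dens
  split_ifs with h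
  · obtain ⟨i, hi⟩ := sm_dvd hp hodd h
    have hs := sm_pos hp
    have hi0 : 0 < i := by
      rcases Nat.eq_zero_or_pos i with h0 | h0
      · subst h0; omega
      · exact h0
    have hdiv : (l - 1) / sm p = i := by
      rw [hi]; exact Nat.mul_div_cancel_left _ (by omega)
    rw [hdiv]
    have hcard : ((Om p q l).card : ℝ) ≤ p := by exact_mod_cast card_Om_le hp hl hq
    have hl1 : (l : ℝ) = sm p * i + 1 := by
      have : l = sm p * i + 1 := by omega
      exact_mod_cast this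
    have hsg : 2 * (p : ℝ) ≤ 2 + sm p := by exact_mod_cast sm_ge p
    have hi1 : (1 : ℝ) ≤ i := by exact_mod_cast hi0
    have h1 : (1 - 1 / (l : ℝ)) * (1 - 1 / (2 * (i : ℝ))) ≤ 1 - p / l := by
      have e1 : (1 - 1 / (l : ℝ)) * (1 - 1 / (2 * (i : ℝ))) =
          ((l - 1) * (2 * i - 1)) / (l * (2 * i)) := by field_simp
      have e2 : 1 - p / (l : ℝ) = ((l - p) * (2 * i)) / (l * (2 * i)) := by field_simp
      rw [e1, e2]
      apply div_le_div_of_nonneg_right _ (by positivity)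
      rw [hl1]
      nlinarith
    have h2 : ((Om p q l).card : ℝ) / l ≤ p / l := div_le_div_of_nonneg_right hcard hl0.le
    linarith
  · have hcard : ((Om p q l).card : ℝ) ≤ 1 := by
      exact_mod_cast card_Om_le_one hp hl (by omega) hq h
    have h2 : ((Om p q l).card : ℝ) / l ≤ 1 / l := div_le_div_of_nonneg_right hcard hl0.le
    linarith

lemma V_ge {p q : ℕ} (hp : p.Prime) (z : ℕ) (hz : 2 ≤ z)
    (hq : ∀ l : ℕ, l.Prime → 2 * p + 2 < l → (q : ZMod l) ≠ 0) :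
    1 / (1000 * (Real.sqrt z * Real.log z)) ≤
      ∏ l ∈ sprimes (2 * p + 2) z, (1 - Sieve.dens (Om p q) l) := by
  classical
  set h : ℕ → ℝ := fun l =>
    if p ∣ l - 1 then 1 - 1 / (2 * (((l - 1) / sm p : ℕ) : ℝ)) else 1 with hh
  have hz' : (2 : ℝ) ≤ z := by exact_mod_cast hz
  have hlog : 0 < Real.log z := Real.log_pos (by linarith)
  have hsq : 0 < Real.sqrt z := Real.sqrt_pos.2 (by linarith)
  set Q := sprimes (2 * p + 2) z with hQ
  have hpr : ∀ l ∈ Q, l.Prime ∧ 2 * p + 2 < l ∧ l ≤ z := fun l hl => mem_sprimes.1 hl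
  have hinv : ∀ l : ℕ, l.Prime → 0 < 1 - 1 / (l : ℝ) ∧ 1 - 1 / (l : ℝ) ≤ 1 := by
    intro l hl
    have h2 : (2 : ℝ) ≤ l := by exact_mod_cast hl.two_le
    have : 1 / (l : ℝ) ≤ 1 / 2 := one_div_le_one_div_of_le (by norm_num) h2
    have : 0 < 1 / (l : ℝ) := by positivity
    constructor <;> linarith
  have hhalf : ∀ i : ℕ, 1 ≤ i → 0 ≤ 1 - 1 / (2 * (i : ℝ)) ∧ 1 - 1 / (2 * (i : ℝ)) ≤ 1 := by
    intro i hi
    have h1 : (1 : ℝ) ≤ i := by exact_mod_cast hi
    have h2 : 1 / (2 * (i : ℝ)) ≤ 1 := by rw [div_le_one (by positivity)]; linarith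
    have h3 : 0 < 1 / (2 * (i : ℝ)) := by positivity
    constructor <;> linarith
  have hs := sm_pos hp
  have hidx : ∀ l ∈ Q, p ∣ l - 1 → ∃ i, l = sm p * i + 1 ∧ (l - 1) / sm p = i ∧ 1 ≤ i ∧ i ≤ z := by
    intro l hl hd
    obtain ⟨h1, h2, h3⟩ := hpr l hl
    have hodd : l % 2 = 1 := by
      rcases h1.eq_two_or_odd with h | h <;> omega
    obtain ⟨i, hi⟩ := sm_dvd hp hodd hd
    have hdiv : (l - 1) / sm p = i := by
      rw [hi]; exact Nat.mul_div_cancel_left _ (by omega)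
    have hi0 : 1 ≤ i := by
      rcases Nat.eq_zero_or_pos i with h0 | h0
      · subst h0; omega
      · exact h0
    have hle : i ≤ sm p * i := Nat.le_mul_of_pos_left i (by omega)
    exact ⟨i, by omega, hdiv, hi0, by omega⟩
  have hh0 : ∀ l ∈ Q, 0 ≤ h l := by
    intro l hl
    simp only [hh]
    split_ifs with hd
    · obtain ⟨i, -, h2, h3, -⟩ := hidx l hl hd
      rw [h2]; exact (hhalf i h3).1
    · norm_num
  -- first product
  have hA : 1 / (500 * Real.log z) ≤ ∏ l ∈ Q, (1 - 1 / (l : ℝ)) := by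
    have h1 : ∏ l ∈ primesUpTo z, (1 - 1 / (l : ℝ)) ≤ ∏ l ∈ Q, (1 - 1 / (l : ℝ)) :=
      prod_le_of_subset (fun l hl => mem_primesUpTo.2 ⟨(hpr l hl).1, (hpr l hl).2.2⟩) _
        (fun l hl => (hinv l (mem_primesUpTo.1 hl).1).1.le)
        (fun l hl => (hinv l (mem_primesUpTo.1 hl).1).2)
    have h2 := Helper57.prod_one_sub_inv_inv_le z hz
    rw [Finset.prod_inv_distrib] at h2
    have h3 : 0 < ∏ l ∈ primesUpTo z, (1 - 1 / (l : ℝ)) :=
      Finset.prod_pos fun l hl => (hinv l (mem_primesUpTo.1 hl).1).1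
    refine le_trans ?_ h1
    rw [one_div]
    exact inv_le_of_inv_le₀ h3 h2
  -- second product
  have hB : 1 / (2 * Real.sqrt z) ≤ ∏ l ∈ Q, h l := by
    have h1 : ∏ l ∈ Q, h l = ∏ l ∈ Q.filter (fun l => p ∣ l - 1), h l := by
      rw [Finset.prod_filter_of_ne]
      intro l hl hne
      by_contra hd
      exact hne (by simp only [hh]; rw [if_neg hd])
    have h2 : ∏ l ∈ Q.filter (fun l => p ∣ l - 1), h l =
        ∏ i ∈ (Q.filter (fun l => p ∣ l - 1)).image (fun l => (l - 1) / sm p),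
          (1 - 1 / (2 * (i : ℝ))) := by
      rw [Finset.prod_image]
      · apply Finset.prod_congr rfl
        intro l hl
        simp only [hh]
        rw [if_pos (Finset.mem_filter.1 hl).2]
      · intro x hx y hy hxy
        obtain ⟨hx1, hx2⟩ := Finset.mem_filter.1 hx
        obtain ⟨hy1, hy2⟩ := Finset.mem_filter.1 hy
        obtain ⟨i, hi1, hi2, -⟩ := hidx x hx1 hx2
        obtain ⟨j, hj1, hj2, -⟩ := hidx y hy1 hy2
        have : i = j := by
          rw [← hi2, ← hj2]; exact hxy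
        subst this
        omega
    rw [h1, h2]
    refine (beta_ge z (by omega)).trans ?_
    apply prod_le_of_subset
    · intro i hi
      obtain ⟨l, hl, rfl⟩ := Finset.mem_image.1 hi
      obtain ⟨hl1, hl2⟩ := Finset.mem_filter.1 hl
      obtain ⟨i, -, hi2, hi3, hi4⟩ := hidx l hl1 hl2
      rw [hi2]
      exact Finset.mem_Icc.2 ⟨hi3, hi4⟩
    · intro i hi; exact (hhalf i (Finset.mem_Icc.1 hi).1).1
    · intro i hi; exact (hhalf i (Finset.mem_Icc.1 hi).1).2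
  calc 1 / (1000 * (Real.sqrt z * Real.log z))
      = (1 / (500 * Real.log z)) * (1 / (2 * Real.sqrt z)) := by
        field_simp
        norm_num
    _ ≤ (∏ l ∈ Q, (1 - 1 / (l : ℝ))) * ∏ l ∈ Q, h l :=
        mul_le_mul hA hB (by positivity) (Finset.prod_nonneg fun l hl => (hinv l (hpr l hl).1).1.le)
    _ = ∏ l ∈ Q, (1 - 1 / (l : ℝ)) * h l := Finset.prod_mul_distrib.symm
    _ ≤ ∏ l ∈ Q, (1 - Sieve.dens (Om p q) l) := by
        apply Finset.prod_le_prod
        · intro l hl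
          exact mul_nonneg (hinv l (hpr l hl).1).1.le (hh0 l hl)
        · intro l hl
          obtain ⟨h1, h2, -⟩ := hpr l hl
          exact factor_ge hp h1 h2 (hq l h1 h2)

end Pool.Agent.Lib.H25E
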